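import Pool.Agent.TP975.LR.Lp2

/-!
# The Liouville function at the values of almost all polynomials, together with arbitrary functions of the
values at the translates

For almost all polynomials `f` of degree `d` and height `H`: the sums of
`λ(f(n + h_0)) g_1(n, f(n + h_1)) ... g_k(n, f(n + h_k))` over all progressions and all segments of them up
to any power of `log H` have square root cancellation (up to `(log H) ^ ε` and to the `2 m`-th root of the
ratio of the last term and the number of terms, `m (k + 1) ≤ d`), for ARBITRARY bounded complex functions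
`g_j` of `n` and of the values at the translates, and for all shifts `h` at once. Without the factors `g_j`
this is the sum of Chowla's conjecture in a progression.

Proof. `TP975/LR` (starting files): the `2 m`-th moments over the coefficients of `f`: after the inequality
of Hölder a polynomial which vanishes at all the arguments but one is added to `f`, so that only one value
of the Liouville function moves, in a progression of a small modulus; Davenport's bound for the exponential
sums with the Liouville function; and a maximal inequality for all segments.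
-/

set_option autoImplicit false

namespace Pool.Agent.Results.MP_d639b3_nt.ArbitraryOtherFactors

open Finset

/-- The Liouville function on the integers, with `λ(-n) = λ(n)` and `λ(0) = 0`. -/
noncomputable def liouville (n : ℤ) : ℝ := if n = 0 then 0 else (-1) ^ ArithmeticFunction.cardFactors n.natAbs

/-- The value at `t` of the polynomial `f` with the coefficients `f 0, ..., f d`. -/
def value {d : ℕ} (f : Fin (d + 1) → ℤ) (t : ℤ) : ℤ := ∑ c, f c * t ^ (c : ℕ)

/-- The polynomials of degree at most `d` with coefficients in `[-H, H]`. -/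
noncomputable def polynomials (d H : ℕ) : Finset (Fin (d + 1) → ℤ) := Fintype.piFinset fun _ => Icc (-(H : ℤ)) H

/-- The sum of `λ(f(n + h 0)) ∏_{j < k} g j (n) (f(n + h (j + 1)))` over the `n = r + q u`,
`1 ≤ u ≤ N`. -/
noncomputable def twistedSum {d k : ℕ} (f : Fin (d + 1) → ℤ) (g : Fin k → ℤ → ℤ → ℂ) (h : Fin (k + 1) → ℤ)
    (q r N : ℕ) : ℂ :=
  ∑ u ∈ Icc 1 N, (liouville (value f (((r + q * u : ℕ) : ℤ) + h 0)) : ℂ) *
    ∏ j, g j ((r + q * u : ℕ) : ℤ) (value f (((r + q * u : ℕ) : ℤ) + h j.succ))

/-- **The Liouville function along almost all polynomials with arbitrary other factors.** Let `m ≥ 1`,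
`m (k + 1) ≤ d`, and let `A` and `ε > 0` be given. There is `η > 0` such that for large `H` and for
arbitrary functions `g_1, ..., g_k` of two integers with values in the unit disc the following holds for
all polynomials `f` of degree at most `d` with coefficients in `[-H, H]`, with a proportion of at most
`(log H) ^ (-η)` exceptions: for ALL shifts `0 ≤ h_0, ..., h_k ≤ (log H) ^ η` with `h_0 ≠ h_j`, `j ≥ 1`,
and ALL progressions and segments `r + q u`, `1 ≤ u ≤ N`, with `r + q N ≤ (log H) ^ A`, the sum of
`λ(f(n + h_0)) g_1(n, f(n + h_1)) ... g_k(n, f(n + h_k))` is at most the `2 m`-th root of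
`q (r + q N) N ^ (m - 1) (log H) ^ ε`. -/
theorem result (d A m k : ℕ) (hm : 1 ≤ m) (hmk : m * (k + 1) ≤ d) (ε : ℝ) (hε : 0 < ε) :
    ∃ η : ℝ, 0 < η ∧ ∃ H₀ : ℕ, ∀ H : ℕ, H₀ ≤ H →
    ∀ g : Fin k → ℤ → ℤ → ℂ, (∀ j n v, ‖g j n v‖ ≤ 1) →
    ∃ Bad ⊆ polynomials d H, (Bad.card : ℝ) ≤ (polynomials d H).card / Real.log H ^ η ∧
    ∀ f ∈ polynomials d H, f ∉ Bad →
    ∀ h : Fin (k + 1) → ℤ, (∀ j, 0 ≤ h j ∧ (h j : ℝ) ≤ Real.log H ^ η) → (∀ j : Fin k, h j.succ ≠ h 0) →
    ∀ q r N : ℕ, 1 ≤ q → 1 ≤ N → ((r + q * N : ℕ) : ℝ) ≤ Real.log H ^ A →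
      ‖twistedSum f g h q r N‖ ^ (2 * m) ≤
        (q : ℝ) * ((r + q * N : ℕ) : ℝ) * (N : ℝ) ^ (m - 1) * Real.log H ^ ε :=
  Pool.Agent.TP975.LR.ell_complex Pool.Agent.TP975.LR.lamI Pool.Agent.TP975.LR.winB_lamI
    Pool.Agent.TP975.LR.lamI_abs d A m k hm hmk ε hε

end Pool.Agent.Results.MP_d639b3_nt.ArbitraryOtherFactors
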