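import Mathlib
import Pool.Agent.U708.BF.Families

/-!
# Chowla's conjecture for almost all binary forms at all scales, with square root cancellation

For almost all systems of `k` binary forms `f_1, ..., f_k` of degree `d ≥ 1` with coefficients in `[-H, H]`: for ALL `X` up to
any fixed power of `log H` (also for very small ones), ALL rectangles in the square `[-X, X]²` and ALL translated lattices
`(r, s) + N ℤ²` of modulus `N ≤ (log H) ^ η`, the sums of all the products of some of the `λ(f_i(v))` have square root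
cancellation: they are at most `X (log H) ^ ε`, and the same bound holds for the error term in the number of the vectors
with prescribed signs `λ(f_1(v)), ..., λ(f_k(v))`. So the sums of the conjecture are at most `X (log H) ^ ε`, where the
trivial bound is about `X²`, as soon as `X ≥ (log H) ^ (2 ε)`.

It is enough that two coefficients of each form are random: the same holds for `f_i = g_i + q_i ℓ_i` with random linear forms
`ℓ_i` and ARBITRARY functions `g_i`, `q_i` of two integers (of the size of `H (log H) ^ K` and `(log H) ^ K`, respectively,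
`q_i ≠ 0` off the line `x = 0`), for example for all binary forms with given coefficients other than those of
`U ^ d` and `U ^ (d - 1) V` (`q_i = U ^ (d - 1)`), for EACH choice of the given coefficients.

Proof (`U708/BF`). Second moment: if `v` and `v'` are not parallel, the value of `f_i` at `v` is moved in a progression of a
small modulus, the value at `v'` being fixed, by adding multiples of `(y' U - x' V) U ^ (d - 1)`. The number of the pairs of
parallel vectors in the square is `O(X² log² X)`. Then all dyadic rectangles at once.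
-/

set_option autoImplicit false

open Finset

namespace Pool.Agent.Results.MP_d639b3_nt.BinaryFormsAllScales

/-- Liouville's function, with `λ(-n) = λ(n)` and `λ(0) = 0`. -/
noncomputable def liouville (n : ℤ) : ℝ := if n = 0 then 0 else (-1) ^ ArithmeticFunction.cardFactors n.natAbs

/-- The value of the binary form `∑ c_i U ^ i V ^ (d - i)` at the vector `P = (x, y)`. -/
def form {d : ℕ} (c : Fin (d + 1) → ℤ) (P : ℤ × ℤ) : ℤ := ∑ i : Fin (d + 1), c i * P.1 ^ (i : ℕ) * P.2 ^ (d - (i : ℕ))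

/-- The systems of `k` binary forms of degree `d` with coefficients in `[-H, H]`. -/
noncomputable def systems (k d H : ℕ) : Finset (Fin k → Fin (d + 1) → ℤ) :=
  Fintype.piFinset fun _ : Fin k => Fintype.piFinset fun _ : Fin (d + 1) => Icc (-(H : ℤ)) H

/-- The vectors of the translated lattice `(r, s) + N ℤ²` in the rectangle `[x, x'] × [y, y']`. -/
noncomputable def lattice (N : ℕ) (r s x x' y y' : ℤ) : Finset (ℤ × ℤ) :=
  (Icc x x' ×ˢ Icc y y').filter (fun P => (N : ℤ) ∣ P.1 - r ∧ (N : ℤ) ∣ P.2 - s)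

open Classical in
/-- Square root cancellation, at all scales `X ≤ L ^ A`, on all rectangles in `[-X, X]²` and for all the translated lattices of
modulus at most `L ^ η`, for the products and the patterns of signs of `λ(v_1(P)), ..., λ(v_k(P))`. -/
def Cancels {k : ℕ} (v : Fin k → ℤ × ℤ → ℤ) (L : ℝ) (A : ℕ) (η ε : ℝ) : Prop :=
  ∀ N : ℕ, 1 ≤ N → (N : ℝ) ≤ L ^ η → ∀ (r s : ℤ) (X : ℕ), 1 ≤ X → (X : ℝ) ≤ L ^ A → ∀ x x' y y' : ℤ,
    -(X : ℤ) ≤ x → x' ≤ X → -(X : ℤ) ≤ y → y' ≤ X →
    (∀ I : Finset (Fin k), I.Nonempty → |∑ P ∈ lattice N r s x x' y y', ∏ i ∈ I, liouville (v i P)| ≤ X * L ^ ε) ∧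
    ∀ δ : Fin k → ℝ, (∀ i, δ i = 1 ∨ δ i = -1) →
      |(((lattice N r s x x' y y').filter (fun P => ∀ i, liouville (v i P) = δ i)).card : ℝ) -
        (1 / 2) ^ k * ((lattice N r s x x' y y').card : ℝ)| ≤ X * L ^ ε

/-- **Chowla's conjecture for almost all binary forms at all scales, with square root cancellation.** Let `d ≥ 1`, `k`, `A` and
`ε > 0` be given. There is `η > 0` such that (1) for large `H` all systems of `k` binary forms of degree `d` with
coefficients in `[-H, H]`, with a proportion of at most `(log H) ^ (-η)` exceptions, satisfy `Cancels`; (2) the same holds, for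
large `H`, for the systems `g_i + q_i ℓ_i` with linear forms `ℓ_i` with coefficients in `[-H, H]`, for ANY functions `g_i`, `q_i` of
two integers, bounded by `H (log H) ^ K` and `(log H) ^ K` on the square `[-(log H) ^ (A + 1), (log H) ^ (A + 1)]²`, with `q_i(x, y) ≠ 0`
for `x ≠ 0`. -/
theorem result (d k A : ℕ) (hd : 1 ≤ d) (ε : ℝ) (hε : 0 < ε) : ∃ η : ℝ, 0 < η ∧
    (∃ H₀ : ℕ, ∀ H : ℕ, H₀ ≤ H → ∃ Bad ⊆ systems k d H, (Bad.card : ℝ) ≤ (systems k d H).card / Real.log H ^ η ∧
      ∀ c ∈ systems k d H, c ∉ Bad → Cancels (fun i P => form (c i) P) (Real.log H) A η ε) ∧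
    ∀ K : ℕ, ∃ H₀ : ℕ, ∀ H : ℕ, H₀ ≤ H → ∀ g q : Fin k → ℤ × ℤ → ℤ,
      (∀ i, ∀ P : ℤ × ℤ, |(P.1 : ℝ)| ≤ Real.log H ^ (A + 1) → |(P.2 : ℝ)| ≤ Real.log H ^ (A + 1) →
        |(g i P : ℝ)| ≤ H * Real.log H ^ K ∧ |(q i P : ℝ)| ≤ Real.log H ^ K) →
      (∀ i, ∀ P : ℤ × ℤ, P.1 ≠ 0 → q i P ≠ 0) →
      ∃ Bad ⊆ systems k 1 H, (Bad.card : ℝ) ≤ (systems k 1 H).card / Real.log H ^ η ∧
      ∀ c ∈ systems k 1 H, c ∉ Bad → Cancels (fun i P => g i P + q i P * form (c i) P) (Real.log H) A η ε := by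
  classical
  have hF := Pool.Agent.TP975.LR.winB_lamI
  have hF1 : ∀ v : ℤ, v ≠ 0 → Pool.Agent.TP975.LR.lamI v = 1 ∨ Pool.Agent.TP975.LR.lamI v = -1 := by
    intro v hv
    unfold Pool.Agent.TP975.LR.lamI
    rw [if_neg hv]
    rcases neg_one_pow_eq_or ℝ (ArithmeticFunction.cardFactors v.natAbs) with h | h
    · exact Or.inl h
    · exact Or.inr h
  have hF0 : Pool.Agent.TP975.LR.lamI 0 = 0 := by
    unfold Pool.Agent.TP975.LR.lamI
    rw [if_pos rfl]
  refine ⟨ε / 32, by positivity, ?_, ?_⟩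
  · obtain ⟨H1, h1⟩ := Pool.Agent.U708.BF.fam_form d (A + 1) hd
    obtain ⟨H2, h2⟩ := Pool.Agent.U708.BF.main2 _ hF hF1 hF0 k d ((A + 1) * (d + 1) + 1) A ε hε
    refine ⟨max H1 H2, fun H hH => ?_⟩
    obtain ⟨Bad, hs, hc, hb⟩ := h2 H ((le_max_right _ _).trans hH) (fun _ => Pool.Agent.U708.BF.form)
      (fun _ => h1 H ((le_max_left _ _).trans hH)) (fun _ => Pool.Agent.U708.BF.det_form d)
    exact ⟨Bad, hs, hc, fun c hc' hcb N hN1 hN r s X hX1 hX x x' y y' a1 a2 a3 a4 =>
      hb c hc' hcb N hN1 hN r s X hX1 hX x x' y y' a1 a2 a3 a4⟩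
  · intro K
    obtain ⟨H1, h1⟩ := Pool.Agent.U708.BF.fam_lin K (A + 1)
    obtain ⟨H2, h2⟩ := Pool.Agent.U708.BF.main2 _ hF hF1 hF0 k 1 (K + (A + 1) + 1) A ε hε
    refine ⟨max H1 H2, fun H hH g q hgq hq => ?_⟩
    obtain ⟨Bad, hs, hc, hb⟩ := h2 H ((le_max_right _ _).trans hH) (fun i => Pool.Agent.U708.BF.lin (g i) (q i))
      (fun i => h1 H ((le_max_left _ _).trans hH) (g i) (q i) (fun P p1 p2 => ⟨(hgq i P p1 p2).1, (hgq i P p1 p2).2, hq i P⟩))
      (fun i => Pool.Agent.U708.BF.det_lin (g i) (q i) (hq i))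
    exact ⟨Bad, hs, hc, fun c hc' hcb N hN1 hN r s X hX1 hX x x' y y' a1 a2 a3 a4 =>
      hb c hc' hcb N hN1 hN r s X hX1 hX x x' y y' a1 a2 a3 a4⟩

end Pool.Agent.Results.MP_d639b3_nt.BinaryFormsAllScales
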