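import Pool.Agent.U837.CC.Lf
import Pool.Agent.U837.CC.Cr

/-!
# Chowla's conjecture in progressions for arbitrary polynomials times any number of linear factors whose constant terms are
multiples of integers near concatenated polynomial values

The values of `F(n) = f(n) ∏_{i ∈ I} (α n + h i q i)`, where `f` is an arbitrary polynomial, `1 ≤ h i ≤ k ^ J` and `q i` is any
integer within `k ^ W` of the integer whose digits in some base `b ≤ k ^ W` are those of `f_1(m)`, `f_2(m)`, ..., `f_r(m)`
written one after the other, `m = m i`, where `f_1, ..., f_r` are ANY integer polynomials of distinct degrees between `1` and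
`D` with coefficients of absolute value at most `k ^ W`: for almost all the vectors `(m 1, ..., m s)`, simultaneously for
all these bases, polynomials, `q` and `h`. For given bases and polynomials these are thin sets: `x` integers of the size
`x ^ (deg f_1 + ... + deg f_r)`.

From Mathlib: `ArithmeticFunction.cardFactors n`: the number `Ω(n)` of the prime factors with multiplicity;
`Finset.Ioc u w`: the integers `n` with `u < n ≤ w`.

Method: the integers with a given number of digits in every block are the values `∑_i b ^ (e_i) f_i(m)` of a polynomial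
with huge coefficients. An inverse theorem for Weyl sums with ALL the coefficients (`Pool.Agent.U837.CC.IWF_all`, deduced
from the one for the leading coefficient in `H373R2/NB/Weyl`) shows, one block after the other, that a frequency `β` with
a large exponential sum is such that all the `b ^ (e_i) β` are close to rational numbers with one small denominator (here the
degrees have to be distinct); only few frequencies have this property, also for the multiples of the integers
(`Pool.Agent.U837.CC.count_vec`, `Pool.Agent.U837.CC.cc_tcls`). The passage from such a description of the large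
frequencies to correlations is from the starting files (`Pool.Agent.N625.PT.t_corr`), the case of several linear factors is
helper847's (`Pool.Agent.U847.LF`). The number of the choices of the digit lengths, of the bases and of the polynomials is
only a power of `k` (`Pool.Agent.U837.CC.vec_cat`).
-/

set_option autoImplicit false

namespace Pool.Agent.Results.MP_d639b3_nt.Concatenations

open Finset Polynomial

/-- The Liouville function on the integers, `λ(-m) = λ(m)` and `λ(0) = 0`. -/
def lam (m : ℤ) : ℤ := if m = 0 then 0 else (-1) ^ ArithmeticFunction.cardFactors m.natAbs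

/-- The sum of `λ(F(n))` over the integers `n ≡ r mod m` with `u < n ≤ w`, where `F` is the product of the polynomial `f` and
of the linear polynomials `α n + a i`, `i ∈ I`. -/
noncomputable def lamSum {s : ℕ} (f : ℤ[X]) (α : ℕ) (a : Fin s → ℤ) (I : Finset (Fin s)) (m r u w : ℕ) : ℤ :=
  ∑ n ∈ (Ioc u w).filter (fun n : ℕ => n ≡ r [MOD m]), lam (f.eval (n : ℤ) * ∏ i ∈ I, (α * n + a i))

/-- The number whose digits in base `b`, read from the left to the right, are those of `f(n)`, `f ∈ F`, written one after
the other. -/
noncomputable def concat (b : ℕ) (F : List ℤ[X]) (n : ℕ) : ℕ :=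
  Nat.ofDigits b ((F.reverse.map (fun f => Nat.digits b (f.eval (n : ℤ)).toNat)).flatten)

/-- The base `b` satisfies `2 ≤ b ≤ r`; the list `F` is not empty, and the members of `F` have distinct degrees between `1`
and `D`, coefficients of absolute value at most `r`, and nonnegative values at `n`. -/
def Small (D : ℕ) (r : ℝ) (n b : ℕ) (F : List ℤ[X]) : Prop :=
  (2 ≤ b ∧ (b : ℝ) ≤ r) ∧ F ≠ [] ∧ (F.map natDegree).Nodup ∧
    ∀ f ∈ F, 1 ≤ f.natDegree ∧ f.natDegree ≤ D ∧ (∀ i, |((f.coeff i : ℤ) : ℝ)| ≤ r) ∧ 0 ≤ f.eval (n : ℤ)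

/-- `2 ^ k / k ^ W ≤ a ≤ 2 ^ k`. -/
def Scale (W k a : ℕ) : Prop := (2 : ℝ) ^ k ≤ (k : ℝ) ^ W * a ∧ a ≤ 2 ^ k

/-- For ALL the integers `q i ≥ 0` at a distance of at most `k ^ W` from `a i`, ALL the factors `1 ≤ h i ≤ k ^ J`, all `l` and all
nonempty sets `I` of indices: the sum of `λ(f l (n) ∏_{i ∈ I} (α l n + h i * q i))` over the `n ≡ r mod m` in any interval
`(u, w]` with `α l w ≤ k ^ A 2 ^ k`, for any residue class `r` modulo any `m ≤ k ^ T`, is at most `2 ^ k / k ^ U` in absolute value. -/
def Good {s M : ℕ} (A J T U W k : ℕ) (f : Fin M → ℤ[X]) (α : Fin M → ℕ) (a : Fin s → ℕ) : Prop :=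
  ∀ q : Fin s → ℕ, (∀ i, |(q i : ℤ) - a i| ≤ (k : ℤ) ^ W) → ∀ h : Fin s → ℕ, (∀ i, 1 ≤ h i ∧ h i ≤ k ^ J) →
    ∀ l, ∀ I : Finset (Fin s), I.Nonempty → ∀ m r u w : ℕ, 1 ≤ m → m ≤ k ^ T → u ≤ w → α l * w ≤ k ^ A * 2 ^ k →
      |((lamSum (f l) (α l) (fun i => (h i : ℤ) * q i) I m r u w : ℤ) : ℝ)| ≤ (2 : ℝ) ^ k / (k : ℝ) ^ U

open Classical in
/-- The number of the vectors `n`, `1 ≤ n i ≤ x i`, for which there are bases `b i` and lists `F i` of polynomials with
`Small D (k ^ W) (n i) (b i) (F i)` such that the integers `a i = concat (b i) (F i) (n i)` are between `2 ^ k / k ^ W` and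
`2 ^ k` and `Good A J T U W k f α a` fails. -/
noncomputable def exceptions {s M : ℕ} (D A J T U W k : ℕ) (f : Fin M → ℤ[X]) (α : Fin M → ℕ) (x : Fin s → ℕ) : ℕ :=
  ((Fintype.piFinset (fun i => Icc 1 (x i))).filter (fun n => ∃ (b : Fin s → ℕ) (F : Fin s → List ℤ[X]),
    (∀ i, Small D ((k : ℝ) ^ W) (n i) (b i) (F i) ∧ Scale W k (concat (b i) (F i) (n i))) ∧
    ¬ Good A J T U W k f α (fun i => concat (b i) (F i) (n i)))).card

lemma cond_of {D W k n b : ℕ} {F : List ℤ[X]} (h1 : Small D ((k : ℝ) ^ W) n b F) (h2 : Scale W k (concat b F n)) :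
    Pool.Agent.U837.CC.Cond D W k n b F.reverse := by
  obtain ⟨⟨a1, a2⟩, a3, a4, a5⟩ := h1
  exact ⟨a1, a2, Pool.Agent.U837.CC.adm_rev ⟨a3, a4, a5⟩, h2.1, h2.2⟩

/-- **Chowla's conjecture in progressions for arbitrary polynomials times linear factors whose constant terms are multiples
of integers near concatenated polynomial values.** Let `s`, `D`, `W`, `U`, `J`, `A` and `T` be fixed and let `k` be large. Let
at most `k ^ T` pairs of a polynomial `f l` with integer coefficients (of any degree) and of an integer `α l ≥ 1` be given,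
and let `x 1, ..., x s` be arbitrary. Then the following holds for all but at most `x 1 ⋯ x s / k ^ U` of the vectors `n`,
`1 ≤ n i ≤ x i`: for ALL the bases `b i ≤ k ^ W` and ALL the lists `F i` of integer polynomials of distinct degrees between
`1` and `D` with coefficients of absolute value at most `k ^ W` and nonnegative values at `n i`, for which the integers `a i`
whose digits in base `b i` are those of `g(n i)`, `g ∈ F i`, written one after the other are between `2 ^ k / k ^ W` and `2 ^ k`;
for ALL the integers `q i ≥ 0` at a distance of at most `k ^ W` from `a i`, ALL the factors `1 ≤ h i ≤ k ^ J`, all `l` and all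
nonempty sets `I` of indices:

`|∑ λ(f l (n) ∏_{i ∈ I} (α l n + h i * q i))| ≤ 2 ^ k / k ^ U`,

where the sum is over the `n ≡ r mod m` in an arbitrary interval `(u, w]` of natural numbers with `α l w ≤ k ^ A 2 ^ k`, for all
residue classes `r` modulo all `m ≤ k ^ T`. -/
theorem result (s D W U J A T : ℕ) : ∃ k₀ : ℕ, ∀ k : ℕ, k₀ ≤ k →
    ∀ M : ℕ, M ≤ k ^ T → ∀ (f : Fin M → ℤ[X]) (α : Fin M → ℕ), (∀ l, 1 ≤ α l) → ∀ x : Fin s → ℕ,
      (exceptions D A J T U W k f α x : ℝ) ≤ (∏ i, (x i : ℝ)) / (k : ℝ) ^ U := by
  classical
  obtain ⟨k₀, h0⟩ := Pool.Agent.U837.CC.cc_lin s D W U J A T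
  refine ⟨k₀, fun k hk M hM f α hα x => ?_⟩
  unfold exceptions
  refine h0 k hk M hM f α hα x _ (filter_subset _ _) ?_
  intro n hn
  rw [mem_filter] at hn
  obtain ⟨_, b, F, h1, h2⟩ := hn
  unfold Good at h2
  push Not at h2
  obtain ⟨q, hq, h, hh, l, I, hI, m, r, u, w, c1, c2, c3, c4, c5⟩ := h2
  refine ⟨b, fun i => (F i).reverse, q, h, fun i => cond_of (h1 i).1 (h1 i).2, hq, hh, ?_⟩
  intro hall
  have := hall l I hI m r u w c1 c2 c3 c4
  push_cast at this
  exact absurd this (not_le.2 c5)

end Pool.Agent.Results.MP_d639b3_nt.Concatenations
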