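import Pool.Agent.U847.WT
import Pool.Agent.U847.LF

/-!
# Chowla's conjecture in progressions for arbitrary polynomials times any number of linear factors whose constant terms are
multiples of integers near integers whose digits label walks in infinite graphs

The values of `F(n) = f(n) ∏_{i ∈ I} (α n + h i q i)`, where `f` is an arbitrary polynomial, `q i` is any integer near
`c i + κ i * v i` and `1 ≤ h i ≤ k ^ J`, for almost all the vectors of integers `v i` whose `k` digits are the labels of the
walks between two vertices of a graph, for example of the Cayley graph of a group: then these are the integers whose digits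
spell a given element of the group. Such a set can contain as few as `N ^ ε` integers below `N`, and in general it is not
automatic.

From Mathlib: `ArithmeticFunction.cardFactors n`: the number `Ω(n)` of the prime factors with multiplicity;
`Finset.Ioc u w`: the integers `n` with `u < n ≤ w`; `Fintype.piFinset S`: the vectors `v` with `v i ∈ S i`.

Method: the exponential sum over the walks is dominated by the iterates of the adjacency operator of the graph, which
loses a constant factor at every digit where the frequency is not extremal (starting files, `Pool.Agent.N625.GW`). New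
here: a frequency `θ` at which the exponential sum over the multiples `h v` is large differs little from a fraction with a
small denominator except at `O(log k)` of the digits, for all `h ≤ k ^ J` (`Pool.Agent.U847.TG`, `Pool.Agent.U847.TI`), and the
case of several linear factors (`Pool.Agent.U847.LF`). The passage from such a description of the large frequencies to
correlations is from the starting files (`Pool.Agent.N625.PT.t_corr`).
-/

set_option autoImplicit false

namespace Pool.Agent.Results.MP_d639b3_nt.WalkLinearFactors

open Finset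

/-- The Liouville function on the integers, `λ(-m) = λ(m)` and `λ(0) = 0`. -/
def lam (m : ℤ) : ℤ := if m = 0 then 0 else (-1) ^ ArithmeticFunction.cardFactors m.natAbs

/-- The sum of `λ(F(n))` over the integers `n ≡ r mod m` with `u < n ≤ w`, where `F` is the product of the polynomial `f` and
of the linear polynomials `α n + a i`, `i ∈ I`. -/
noncomputable def lamSum {s : ℕ} (f : Polynomial ℤ) (α : ℕ) (a : Fin s → ℤ) (I : Finset (Fin s)) (m r u w : ℕ) : ℤ :=
  ∑ n ∈ (Ioc u w).filter (fun n : ℕ => n ≡ r [MOD m]), lam (f.eval (n : ℤ) * ∏ i ∈ I, (α * n + a i))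

/-- The digits `a < b` act on the set `X` of the vertices: an edge with the label `a` leads from `x` to `y` if
`δ x a = some y` (at most one edge with the label `a` starts at `x`). The number of the edges from `x` to `y` equals the
number of the edges from `y` to `x`, and at least two edges start at every vertex. The graph may be infinite. -/
structure Graph {X : Type} (b : ℕ) (δ : X → ℕ → Option X) : Prop where
  symm : ∀ x y : X, {a : ℕ | a < b ∧ δ x a = some y}.ncard = {a : ℕ | a < b ∧ δ y a = some x}.ncard
  two : ∀ x : X, ∃ a a' : ℕ, a < a' ∧ a' < b ∧ (δ x a).isSome ∧ (δ x a').isSome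

open Classical in
/-- The integers `v < b ^ k` whose `k` digits in base `b`, from the most significant to the least significant one (the
digit number `i`, `0 ≤ i < k`, from the left is `v / b ^ (k - 1 - i) % b`), are the labels of a walk from `x` to `y`. -/
noncomputable def walks {X : Type} (b : ℕ) (δ : X → ℕ → Option X) (k : ℕ) (x y : X) : Finset ℕ :=
  (range (b ^ k)).filter fun v =>
    ((List.range k).map fun i => v / b ^ (k - 1 - i) % b).foldl (fun s a => s.bind fun z => δ z a) (some x) = some y

lemma lamSum_eq {s : ℕ} (f : Polynomial ℤ) (α : ℕ) (a : Fin s → ℤ) (I : Finset (Fin s)) (m r u w : ℕ) :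
    lamSum f α a I m r u w = Pool.Agent.U847.LF.linSum f α a I m r u w := rfl

open Classical in
/-- Let `δ i`, for `i < s`, `s ≥ 1`, be graphs (infinite or not) whose edges are labelled with the digits in base `b`, let
`x i` be a vertex of the `i`-th graph, and let `ρ i > 0` be such that there are at most `ρ i ^ (2 n)` closed walks of the
length `2 n` at `x i`, for all `n`. Let `κ i ≠ 0`, `D`, `B`, `A`, `T`, `J`, `W` and `U` be fixed and let `k` be large. Let `y i`
be vertices such that the number of the walks of the length `k` from `x i` to `y i` is at least `ρ i ^ k / k ^ D`, let `c i` be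
arbitrary integers with `|c i| ≤ B b ^ k`, and let at most `k ^ T` pairs of a polynomial `f l` with integer coefficients (of
any degree) and of an integer `α l ≥ 1` be given. Then for all the vectors `(v 1, ..., v s)` such that the `k` digits of `v i` in
base `b` are the labels of a walk from `x i` to `y i`, with the exception of a proportion of at most `1 / k ^ U` of these
vectors, the following holds for ALL the integers `q i ≥ 0` at a distance of at most `k ^ W` from `c i + κ i * v i`, ALL the
factors `1 ≤ h i ≤ k ^ J`, all `l` and all nonempty sets `I` of indices: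

`|∑ λ(f l (n) ∏_{i ∈ I} (α l n + h i * q i))| ≤ b ^ k / k ^ U`,

where the sum is over the `n ≡ r mod m` in an arbitrary interval `(u, w]` of natural numbers with `α l w ≤ k ^ A b ^ k`, for all
residue classes `r` modulo all `m ≤ k ^ T`.

(For a group of polynomial growth, a free group, or any group with the property of rapid decay, there are at least
`ρ ^ k / k ^ D` closed walks of every even length `k` in the Cayley graph, where `ρ` is its spectral radius.) -/
theorem result (s : ℕ) (hs : 1 ≤ s) (b : ℕ) (X : Fin s → Type) (δ : ∀ i, X i → ℕ → Option (X i))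
    (hG : ∀ i, Graph b (δ i)) (x : ∀ i, X i) (ρ : Fin s → ℝ) (hρ : ∀ i, 0 < ρ i)
    (hR : ∀ i, ∀ n : ℕ, ((walks b (δ i) (2 * n) (x i) (x i)).card : ℝ) ≤ ρ i ^ (2 * n))
    (κ : Fin s → ℤ) (hκ : ∀ i, κ i ≠ 0) (D B A T J W U : ℕ) :
    ∃ k₀ : ℕ, ∀ k : ℕ, k₀ ≤ k → ∀ y : ∀ i, X i,
      (∀ i, ρ i ^ k / (k : ℝ) ^ D ≤ (walks b (δ i) k (x i) (y i)).card) →
      ∀ c : Fin s → ℤ, (∀ i, |c i| ≤ B * (b : ℤ) ^ k) →
      ∀ M : ℕ, M ≤ k ^ T → ∀ (f : Fin M → Polynomial ℤ) (α : Fin M → ℕ), (∀ l, 1 ≤ α l) →
      (((Fintype.piFinset fun i => walks b (δ i) k (x i) (y i)).filter fun v => ¬ ∀ q : Fin s → ℕ,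
            (∀ i, |(q i : ℤ) - (c i + κ i * v i)| ≤ (k : ℤ) ^ W) → ∀ h : Fin s → ℕ, (∀ i, 1 ≤ h i ∧ h i ≤ k ^ J) →
            ∀ l, ∀ I : Finset (Fin s), I.Nonempty → ∀ m r u w : ℕ, 1 ≤ m → m ≤ k ^ T → u ≤ w →
              α l * w ≤ k ^ A * b ^ k →
              |((lamSum (f l) (α l) (fun i => (h i : ℤ) * q i) I m r u w : ℤ) : ℝ)| ≤ (b : ℝ) ^ k / (k : ℝ) ^ U).card : ℝ) ≤
        (Fintype.piFinset fun i => walks b (δ i) k (x i) (y i)).card / (k : ℝ) ^ U := by
  have hb : 2 ≤ b := Pool.Agent.N625.GW.two_le (δ := δ ⟨0, by omega⟩) ⟨(hG _).symm, (hG _).two⟩ (x ⟨0, by omega⟩)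
  have hT : ∀ i, Pool.Agent.N625.PT.TCls b (κ i) (Pool.Agent.N625.GW.WC b (δ i) (x i) (ρ i) D) :=
    fun i => Pool.Agent.U847.TI.w_tcls (b := b) (δ := δ i) ⟨(hG i).symm, (hG i).two⟩ (x i) (ρ i) (hρ i) (hR i) D (κ i) (hκ i)
  obtain ⟨k₀, hmain⟩ := Pool.Agent.U847.LF.t_lin s hb κ _ hT B A T J W U
  refine ⟨k₀ + 3, fun k hk y hy c hc M hM f α hα => ?_⟩
  exact Pool.Agent.U847.WT.w_nums hρ (by omega) hy _ (fun p hp => hmain k (by omega) p hp c hc M hM f α hα)

end Pool.Agent.Results.MP_d639b3_nt.WalkLinearFactors
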